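import Pool.Agent.W663.SX.Stm

/-! # Compressions by states are completely positive -/

set_option autoImplicit false
open scoped Matrix.Norms.L2Operator Matrix ComplexOrder

noncomputable section

namespace Pool.Agent.W202.SX.PH

open Pool.Agent.W659.EC (IsCP)
open Pool.Agent.W663.SX

variable {A : Type} [CStarAlgebra A]

theorem gram_form {ι : Type} [Fintype ι] (ρ : A →ₗ[ℂ] ℂ) (v : ι → A) (x : ι → ℂ) :
    star x ⬝ᵥ ((Matrix.of fun a b => ρ (star (v a) * v b)) *ᵥ x) =
      ρ (star (∑ b, x b • v b) * ∑ b, x b • v b) := by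
  simp only [dotProduct, Matrix.mulVec, Matrix.of_apply, Pi.star_apply]
  rw [star_sum, Finset.sum_mul_sum, map_sum]
  refine Finset.sum_congr rfl fun a _ => ?_
  rw [map_sum, Finset.mul_sum]
  refine Finset.sum_congr rfl fun b _ => ?_
  rw [star_smul, smul_mul_smul_comm, map_smul, smul_eq_mul]
  ring

open scoped MatrixOrder in
theorem psd_factor {m : Type} [Fintype m] [DecidableEq m] {T : Matrix m m ℂ} (h : T.PosSemidef) :
    ∃ Z : Matrix m m ℂ, T = Zᴴ * Z := by
  obtain ⟨Z, hZ⟩ := CStarAlgebra.nonneg_iff_eq_star_mul_self.mp h.nonneg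
  exact ⟨Z, hZ⟩

theorem t (h2 : S_ST) : S_PH := by
  intro A _ k ρ e hρ n y
  have hstar := (h2 A ρ hρ).1
  set v : Fin n → (Fin n × Fin k) → A := fun r b => y r b.1 * e b.2 with hv
  set T : Matrix (Fin n × Fin k) (Fin n × Fin k) ℂ :=
    ∑ r, Matrix.of fun a b => ρ (star (v r a) * v r b) with hT
  have hpsd : T.PosSemidef := by
    refine Matrix.PosSemidef.of_dotProduct_mulVec_nonneg ?_ ?_
    · ext a b
      simp only [hT, Matrix.conjTranspose_apply, Matrix.sum_apply, Matrix.of_apply, star_sum]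
      refine Finset.sum_congr rfl fun r _ => ?_
      rw [← hstar, star_mul, star_star]
    · intro x
      rw [hT, Matrix.sum_mulVec, dotProduct_sum]
      refine Finset.sum_nonneg fun r _ => ?_
      rw [gram_form]
      rw [Complex.nonneg_iff]
      exact ⟨hρ.nn _, (hρ.im _).symm⟩
  obtain ⟨Z, hZ⟩ := psd_factor hpsd
  refine ⟨Matrix.of fun r q => Matrix.of fun m i => Z (r, m) (q, i), ?_⟩
  ext p q j i
  have h1 : T (p, j) (q, i) = (Zᴴ * Z) (p, j) (q, i) := by rw [← hZ]
  have hl : ((yᴴ * y).map (comp ρ e)) p q j i = T (p, j) (q, i) := by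
    simp only [Matrix.map_apply, comp, LinearMap.coe_mk, AddHom.coe_mk, Matrix.of_apply,
      Matrix.mul_apply, Matrix.conjTranspose_apply, hT, Matrix.sum_apply, hv]
    rw [Finset.mul_sum, Finset.sum_mul, map_sum]
    refine Finset.sum_congr rfl fun r _ => ?_
    rw [star_mul]
    simp only [mul_assoc]
  rw [hl, h1]
  simp only [Matrix.mul_apply, Matrix.conjTranspose_apply, Fintype.sum_prod_type, Matrix.of_apply,
    Matrix.sum_apply]
  refine Finset.sum_congr rfl fun r _ => ?_
  rfl

end Pool.Agent.W202.SX.PH
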